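import Mathlib

set_option autoImplicit false

namespace Pool.Agent.H.MP_feeeae_al

open Filter Topology Classical

abbrev K := ℕ → Bool
abbrev Λ := FreeGroup Bool

theorem tent (x y : ℝ) : |x - round x| ≤ |x - y| + |y - round y| := (round_le x (round y)).trans (abs_sub_le ..)

noncomputable def T (c : ℝ) : CircleDeg1Lift :=
  ⟨⟨fun x => x + |x + c - round (x + c)| / 2, fun x y h => by
    have := tent (x + c) (y + c)
    rw [add_sub_add_right_eq_sub, abs_of_nonpos (sub_nonpos.2 h)] at this
    dsimp only; linarith⟩, fun x => by simp only [add_right_comm x 1 c, round_add_one]; push_cast; ring_nf⟩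

theorem T_unit (c : ℝ) : IsUnit (T c) := by
  have k : ∀ x y : ℝ, |(|x + c - round (x + c)|) - (|y + c - round (y + c)|)| ≤ |x - y| := fun x y => by
    have a := tent (x + c) (y + c)
    have b := tent (y + c) (x + c)
    rw [add_sub_add_right_eq_sub] at a b
    rw [abs_sub_comm y] at b
    exact abs_sub_le_iff.2 ⟨by linarith, by linarith⟩
  refine CircleDeg1Lift.isUnit_iff_bijective.2 ⟨fun x y (h : x + _ / 2 = y + _ / 2) => ?_, (T c).continuous_iff_surjective.1
    (continuous_id.add ((LipschitzWith.of_dist_le' (K := 1) fun x y => by simpa [Real.dist_eq] using k x y).continuous.div_const 2))⟩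
  have := k x y
  rw [show |x + c - round (x + c)| - |y + c - round (y + c)| = 2 * (y - x) by linarith, abs_mul, abs_sub_comm, abs_two] at this
  exact sub_eq_zero.1 (abs_nonpos_iff.1 (by linarith))

noncomputable def ρ : Λ →* CircleDeg1Lift := (Units.coeHom _).comp (FreeGroup.lift fun b => (T_unit (if b then 0 else 1 / 2)).unit)

theorem τ_ne : (ρ (.of true) * ρ (.of false)).translationNumber ≠ (ρ (.of true)).translationNumber + (ρ (.of false)).translationNumber := by
  have a : (T 0).translationNumber = (0 : ℤ) := (T 0).translationNumber_of_eq_add_int (x := 0) (by simp [T, DFunLike.coe])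
  have b : (T (1 / 2)).translationNumber = (0 : ℤ) := (T _).translationNumber_of_eq_add_int (x := -(1 / 2)) (by simp [T, DFunLike.coe])
  have c : 1 / 8 ≤ (T 0 * T (1 / 2)).translationNumber := CircleDeg1Lift.le_translationNumber_of_add_le _ fun x => by
    change _ ≤ x + _ / 2 + |x + _ / 2 + 0 - round (x + _ / 2 + 0)| / 2
    set t := |x + 1 / 2 - round (x + 1 / 2)|
    have h0 : 0 ≤ t := abs_nonneg _
    have h1 := tent x (x + t / 2 + 0)
    rw [show x - (x + t / 2 + 0) = -(t / 2) by ring, abs_neg, abs_of_nonneg (show 0 ≤ t / 2 by linarith)] at h1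
    have h2 : 1 / 2 ≤ |x - round x| + t := by
      have := abs_sub (x + 1 / 2 - round (x + 1 / 2)) (x - round x)
      rw [show x + 1 / 2 - round (x + 1 / 2) - (x - round x) = 1 / 2 - (round (x + 1 / 2) - round x : ℤ) by push_cast; ring] at this
      have e := round_le (1 / 2 : ℝ) (round (x + 1 / 2) - round x)
      rw [show |(1 / 2 : ℝ) - round (1 / 2 : ℝ)| = 1 / 2 by norm_num [round_eq, abs_of_neg]] at e
      linarith
    linarith [abs_nonneg (x + t / 2 + 0 - round (x + t / 2 + 0))]
  simp only [ρ, MonoidHom.comp_apply, FreeGroup.lift_apply_of, Units.coeHom_apply, IsUnit.unit_spec, if_true, Bool.false_eq_true, if_false, a, b]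
  norm_num at c ⊢
  linarith

noncomputable def e : ℕ ≃ Λ := Classical.choice nonempty_equiv_of_countable

noncomputable def act (l : Λ) : K ≃ₜ K where
  toFun z n := z (e.symm (l⁻¹ * e n))
  invFun z n := z (e.symm (l * e n))
  left_inv z := by simp
  right_inv z := by simp

theorem act_mul (l m : Λ) : act (l * m) = act l * act m := by ext z n; simp [act, mul_assoc]

theorem lim : Tendsto (fun (m : ℕ) (n : ℕ) => decide (n = m)) atTop (𝓝 fun _ => false) :=
  tendsto_pi_nhds.2 fun n => tendsto_const_nhds.congr' ((eventually_gt_atTop n).mono fun _ h => by simp [h.ne])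

theorem uniq {l m : Λ} (h : act l =ᶠ[𝓝 fun _ => false] act m) : l = m := by
  obtain ⟨n, h⟩ := (lim.eventually h).exists
  have := congrFun h (e.symm (l * e n))
  simp [act, Equiv.symm_apply_eq, inv_mul_eq_iff_eq_mul] at this
  exact this

theorem gmul {g h : K ≃ₜ K} {l m : Λ} (a : g =ᶠ[𝓝 fun _ => false] act l) (b : h =ᶠ[𝓝 fun _ => false] act m) :
    ⇑(g * h) =ᶠ[𝓝 fun _ => false] act (l * m) := by
  filter_upwards [b, ((act m).continuous.tendsto' _ (fun _ => false) rfl).eventually a] with z c d
  rw [act_mul, Homeomorph.mul_apply, c, d]; rfl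

def G : Subgroup (K ≃ₜ K) where
  carrier := {g | ∃ l, g =ᶠ[𝓝 fun _ => false] act l}
  mul_mem' := fun ⟨_, a⟩ ⟨_, b⟩ => ⟨_, gmul a b⟩
  one_mem' := ⟨1, .of_forall fun z => by ext; simp [act]⟩
  inv_mem' := fun {g} ⟨l, a⟩ => ⟨l⁻¹, by
    filter_upwards [((act l⁻¹).continuous.tendsto' _ (fun _ => false) rfl).eventually a] with z c
    exact g.injective (by rw [c]; ext; simp [act])⟩

theorem mem {g : K ≃ₜ K} : g ∈ G ↔ ∃ l, g =ᶠ[𝓝 fun _ => false] act l := .rfl

noncomputable def Φ : G →* Λ := MonoidHom.mk' (fun g => (mem.1 g.2).choose) fun g h =>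
  uniq ((mem.1 (g * h).2).choose_spec.symm.trans (gmul (mem.1 g.2).choose_spec (mem.1 h.2).choose_spec))

noncomputable def ac (l : Λ) : G := ⟨act l, mem.2 ⟨l, .rfl⟩⟩

theorem Φ_act (l : Λ) : Φ (ac l) = l := uniq (mem.1 (ac l).2).choose_spec.symm

theorem swap (F : Finset K) (x y : K) (hx : x ∉ F) (hy : y ∉ F) (h0 : (fun _ => false) ∈ F) : ∃ t ∈ G, t x = y ∧ ∀ z ∈ F, t z = z := by
  obtain ⟨N, h⟩ : ∃ N, ∀ z ∈ F, ¬ ((∀ i < N, z i = x i) ∨ ∀ i < N, z i = y i) := by
    refine (eventually_all_finset F).2 (fun z a => ?_) |>.exists (f := atTop)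
    obtain ⟨i, b⟩ := Function.ne_iff.1 (ne_of_mem_of_not_mem a hx)
    obtain ⟨j, c⟩ := Function.ne_iff.1 (ne_of_mem_of_not_mem a hy)
    exact (eventually_gt_atTop (i + j)).mono fun N d k => k.elim (fun k => b (k i (by omega))) fun k => c (k j (by omega))
  let P : K → Prop := fun z => (∀ i < N, z i = x i) ∨ ∀ i < N, z i = y i
  have ev : ∀ z, ∀ᶠ w in 𝓝 z, P w ↔ P z := fun z => ((eventually_all_finite (Set.finite_lt_nat N)).2 fun i _ =>
    ((continuous_apply i).tendsto z).eventually (p := (· = z i)) (by simp)).mono fun w k => by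
      exact or_congr (forall₂_congr fun i a => by rw [k i a]) (forall₂_congr fun i a => by rw [k i a])
  let t : K → K := fun z => if P z then fun i => xor (z i) (xor (x i) (y i)) else z
  have i : ∀ z, t (t z) = z := fun z => by
    by_cases a : P z
    · have : P fun i => xor (z i) (xor (x i) (y i)) := a.symm.imp (fun a i b => by simp [a i b, Bool.xor_comm (x i)]) fun a i b => by simp [a i b]
      simp [t, a, this]
    · simp [t, a]
  have c : Continuous t := continuous_iff_continuousAt.2 fun z => ContinuousAt.congr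
    (f := fun w => if P z then fun i => xor (w i) (xor (x i) (y i)) else w) (by
      split_ifs
      · exact (continuous_pi fun i => (continuous_of_discreteTopology (f := fun b => xor b (xor (x i) (y i)))).comp (continuous_apply i)).continuousAt
      · exact continuousAt_id) ((ev z).mono fun w k => by simp only [t, k])
  refine ⟨⟨⟨t, t, i, i⟩, c, c⟩, mem.2 ⟨1, (ev _).mono fun w k => ?_⟩, by simp [t, P], fun z a => if_neg (h z a)⟩
  exact (if_neg (k.not.2 (h _ h0))).trans (by ext; simp [act])

theorem G0 {g : K ≃ₜ K} (h : g ∈ G) : g (fun _ => false) = fun _ => false := (mem.1 h).choose_spec.self_of_nhds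

theorem trans (n : ℕ) (a b : Fin n → K) (ha : Function.Injective a) (hb : Function.Injective b) (a0 : ∀ i, a i ≠ fun _ => false)
    (b0 : ∀ i, b i ≠ fun _ => false) : ∃ g ∈ G, ∀ i, g (a i) = b i := by
  induction n with
  | zero => exact ⟨1, one_mem _, by simp⟩
  | succ n ih =>
    obtain ⟨g, m, h⟩ := ih (fun i => a i.succ) (fun i => b i.succ) (ha.comp (Fin.succ_injective _)) (hb.comp (Fin.succ_injective _))
      (fun _ => a0 _) fun _ => b0 _
    obtain ⟨t, m', h1, h2⟩ := swap (insert (fun _ => false) (Finset.univ.image fun i : Fin n => b i.succ)) (g (a 0)) (b 0)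
      (by rw [← G0 m]; simp [← h, a0, ha.eq_iff]) (by simp [b0, hb.eq_iff]) (by simp)
    refine ⟨t * g, mul_mem m' m, Fin.cases h1 fun i => ?_⟩
    rw [Homeomorph.mul_apply, h, h2 _ (by simp)]

theorem nb (h : G → ℝ) (C : ℝ) (b : ∀ g, |h g| ≤ C)
    (k : ∀ g g', h g' - h (g * g') + h g = ρ (Φ g) 0 + ρ (Φ g') 0 - ρ (Φ (g * g')) 0) : False := by
  have t : ∀ g, ρ (Φ g) 0 - h g = (ρ (Φ g)).translationNumber := fun g => by
    have p : ∀ n : ℕ, ρ (Φ (g ^ (n + 1))) 0 - h (g ^ (n + 1)) = (n + 1) * (ρ (Φ g) 0 - h g) := fun n => by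
      induction n with
      | zero => simp
      | succ n ih => rw [pow_succ]; push_cast; linarith [k (g ^ (n + 1)) g]
    by_contra n
    obtain ⟨m, c⟩ := exists_nat_gt ((C + 1) / |ρ (Φ g) 0 - h g - (ρ (Φ g)).translationNumber|)
    have d := (ρ (Φ g)).dist_pow_map_zero_mul_translationNumber_le (m + 1)
    have f := p m
    have := abs_pos.2 (sub_ne_zero.2 n)
    rw [div_lt_iff₀ this] at c
    rw [map_pow, map_pow] at f
    have u := abs_sub ((ρ (Φ g) ^ (m + 1)) 0 - (m + 1 : ℕ) * (ρ (Φ g)).translationNumber) (h (g ^ (m + 1)))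
    rw [show (ρ (Φ g) ^ (m + 1)) 0 - (m + 1 : ℕ) * (ρ (Φ g)).translationNumber - h (g ^ (m + 1)) =
      (m + 1) * (ρ (Φ g) 0 - h g - (ρ (Φ g)).translationNumber) by push_cast; linarith, abs_mul, abs_of_pos (by positivity)] at u
    rw [Real.dist_eq] at d
    linarith [b (g ^ (m + 1))]
  have := k (ac (.of true)) (ac (.of false))
  have a := t (ac (.of true))
  have c := t (ac (.of false))
  have d := t ((ac (.of true)) * (ac (.of false)))
  simp only [map_mul, Φ_act] at this a c d
  exact τ_ne (by linarith)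

end Pool.Agent.H.MP_feeeae_al
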